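import Mathlib
import Pool.Agent.H925R3.DC.Final

/-!
# Almost all double covers of a product of CM elliptic curves have no rational point

`A = E₁ × ⋯ × E_r`, `Eᵢ : y² = x³ + aᵢ x + bᵢ`; `X_c : w² = F_c`, where `F_c` runs through the
sections of `O(2m (O₁ + ⋯ + O_r))` with integer coefficients `c` in `[-H, H]`.
All but `O(H^((2m)^r - 1/4 + ε))` of the `(2H+1)^((2m)^r)` varieties `X_c` have no rational point.

* `Mon m` : the exponents `(i, j)`, `j ≤ 1`, `2i + 3j ≤ 2m`, of the basis `x^i y^j` of `L(2m O)`;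
* `Fc c X Y Z = ∑_s c_s ∏ᵢ Xᵢ^{i} Yᵢ^{j} Zᵢ^{2m-2i-3j}` with `(i, j) = sᵢ`;
* `HasPoint a b c` : `w² = F_c` has a rational point over `A` (weighted homogeneous coordinates,
  so the points over the points at infinity are included).
-/

namespace Pool.Agent.Results.MP_2ae8fe_ag.AlmostAllDoubleCovers

open Pool.Agent.H925R3.DC

theorem result :
    -- general form: curves with `p` affine points modulo every prime `p ≡ -1 mod M`, `p ∤ D`
    (∀ (r m : ℕ), 1 ≤ r → 1 ≤ m → ∀ (a b : Fin r → ℤ) (M D : ℕ), 0 < M → 0 < D →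
      (∀ i, 4 * a i ^ 3 + 27 * b i ^ 2 ≠ 0) →
      (∀ i, ∀ p : ℕ, p.Prime → ¬ p ∣ D → M ∣ p + 1 →
        Nat.card {z : ZMod p × ZMod p // z.2 ^ 2 = z.1 ^ 3 + a i * z.1 + b i} = p) →
      ∀ ε : ℝ, 0 < ε → ∃ C : ℝ, ∀ H : ℕ, 1 ≤ H →
        (Nat.card {c : (Fin r → Mon m) → ℤ // (∀ s, |c s| ≤ H) ∧ HasPoint a b c} : ℝ) ≤
          C * (H : ℝ) ^ (((2 * m) ^ r : ℝ) - 1 / 4 + ε)) ∧
    -- unconditional instance: the curves with `j`-invariant `0` or `1728`
    (∀ (r m : ℕ), 1 ≤ r → 1 ≤ m → ∀ a b : Fin r → ℤ,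
      (∀ i, a i * b i = 0 ∧ (a i ≠ 0 ∨ b i ≠ 0)) →
      ∀ ε : ℝ, 0 < ε → ∃ C : ℝ, ∀ H : ℕ, 1 ≤ H →
        (Nat.card {c : (Fin r → Mon m) → ℤ // (∀ s, |c s| ≤ H) ∧ HasPoint a b c} : ℝ) ≤
          C * (H : ℝ) ^ (((2 * m) ^ r : ℝ) - 1 / 4 + ε)) ∧
    -- the number of coefficients is `(2m)^r`
    (∀ r m : ℕ, 1 ≤ m → Fintype.card (Fin r → Mon m) = (2 * m) ^ r) := by
  refine ⟨mainThm, ?_, ?_⟩
  · intro r m hr hm a b hab ε hε
    refine mainThm r m hr hm a b 12 1 (by norm_num) one_pos ?_ ?_ ε hε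
    · intro i h
      obtain ⟨h1, h2⟩ := hab i
      rcases mul_eq_zero.1 h1 with h3 | h3
      · rw [h3] at h h2
        have h4 : (b i) ^ 2 = 0 := by linarith
        rcases h2 with h2 | h2
        · exact h2 rfl
        · exact h2 (pow_eq_zero_iff two_ne_zero |>.1 h4)
      · rw [h3] at h h2
        have h4 : (a i) ^ 3 = 0 := by linarith
        rcases h2 with h2 | h2
        · exact h2 (pow_eq_zero_iff three_ne_zero |>.1 h4)
        · exact h2 rfl
    · intro i p hp _ hM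
      exact Pool.Agent.H35R6.DCCNT.cnt p (a i) (b i) hp hM (hab i).1
  · intro r m hm
    rw [Fintype.card_fun, Pool.Agent.H972R3.DC_CRD.crd m hm, Fintype.card_fin]

end Pool.Agent.Results.MP_2ae8fe_ag.AlmostAllDoubleCovers
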