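import Mathlib
import Pool.Agent.H925R3.RR.Final

/-!
# Almost all covers of powers of an elliptic curve of rank one have no rational point

`E₀ : y² = x³ + a₀ x + b₀` is an elliptic curve over `ℚ` of rank at most one;
`A = E₁ × ⋯ × E_r`, where each `Eᵢ` is `E₀` or has rank zero. The covers of degree `d ≥ 2`
`X_c : w^d + s_1 w^(d-1) + ⋯ + s_d = 0`, `s_k` a section of `O(k m (O₁ + ⋯ + O_r))` with integer
coefficients in `[-H, H]`: for every `B`, all but a proportion `O((log H)^(-B))` of the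
`X_c` have no rational point.

* `crv ℚ a b` : the curve `y² = x³ + a x + b`;
* `Idx r m d` : the index type of the coefficients;
* `HasPointD ℚ a b c` : `X_c` has a rational point (weighted homogeneous coordinates, so the points
  over the points at infinity are included).
-/

namespace Pool.Agent.Results.MP_2ae8fe_ag.RankOneCovers

open Pool.Agent.H925R3.DC Pool.Agent.H925R3.DD

theorem result :
    (∀ (a₀ b₀ : ℤ), 4 * a₀ ^ 3 + 27 * b₀ ^ 2 ≠ 0 →
      -- the rank of `E₀(ℚ)` is at most one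
      (∀ Q R : (crv ℚ (a₀ : ℚ) (b₀ : ℚ)).Point, ∃ m n : ℤ, (m ≠ 0 ∨ n ≠ 0) ∧
        m • Q + n • R = 0) →
      ∀ (r m d : ℕ), 1 ≤ r → 2 ≤ m → 2 ≤ d → ∀ (a b : Fin r → ℤ),
      (∀ i, 4 * a i ^ 3 + 27 * b i ^ 2 ≠ 0) →
      -- each factor is `E₀` or has rank zero
      (∀ i, (a i = a₀ ∧ b i = b₀) ∨
        ∀ Q : (crv ℚ (a i : ℚ) (b i : ℚ)).Point, ∃ n : ℤ, n ≠ 0 ∧ n • Q = 0) →
      ∀ B : ℝ, 0 < B → ∃ C : ℝ, ∀ H : ℕ, 2 ≤ H →
        (Nat.card {c : Idx r m d → ℤ // (∀ s, |c s| ≤ H) ∧ HasPointD ℚ a b c} : ℝ) ≤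
          C * (Real.log H) ^ (-B) * (2 * (H : ℝ) + 1) ^ (Fintype.card (Idx r m d))) ∧
    -- the number of coefficients
    (∀ r m d : ℕ, 2 ≤ m → Fintype.card (Idx r m d) = ∑ i : Fin d, ((i.1 + 1) * m) ^ r) := by
  refine ⟨Pool.Agent.H925R3.RR.mainQThm, ?_⟩
  intro r m d hm
  rw [Fintype.card_sigma]
  apply Finset.sum_congr rfl
  intro i _
  rw [Fintype.card_fun, Pool.Agent.H785R9.crdw ((i.1 + 1) * m) (by nlinarith), Fintype.card_fin]

end Pool.Agent.Results.MP_2ae8fe_ag.RankOneCovers
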