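import Mathlib
import Pool.Agent.H458.Sp.Unirat3

set_option autoImplicit false

/-!
# Rational points that are sparse in some base are not Zariski dense

Let `X` be an integral closed subvariety of projective `n`-space over `ℚ` which is not unirational,
for example a variety of general type of positive dimension, or a K3 surface, or an abelian
variety.  For all `r` and `B` the rational points of `X` with integral homogeneous coordinates of
the form `∑ v j * b ^ (e j)`, with `r` terms, exponents `e j ≥ 0`, digit vectors `v j` with
coordinates of absolute value at most `B` and any base `b ≥ 2`, all bases taken together, are not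
Zariski dense in `X`: they lie on a hypersurface that does not contain `X`.

Since the base varies, these points do not come from a finitely generated group, and the theorem
of Laurent on subvarieties of tori does not apply.

Method: a gap principle and Dirichlet's box principle show that every such point lies on one of
finitely many images of tori in `X`, given by the lattice of the vectors of exponents orthogonal
to all clusters; for large bases the exponents themselves satisfy the same relations.
-/

namespace Pool.Agent.Results.MP_2ae8fe_ag.SparseNotDense

open MvPolynomial Pool.Agent.H458.Sp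

/-- the integral vector `x` is a combination of `r` powers of `b` with integral digit vectors of
absolute value at most `B` -/
def SparseInt {n : ℕ} (b r B : ℕ) (x : Fin (n + 1) → ℤ) : Prop :=
  ∃ (e : Fin r → ℕ) (c : Fin (n + 1) → Fin r → ℤ), (∀ i j, |c i j| ≤ B) ∧
    ∀ i, x i = ∑ j, c i j * (b : ℤ) ^ (e j)

theorem result (n : ℕ) (FF : Finset (MvPolynomial (Fin (n + 1)) ℤ))
    (hhom : ∀ F ∈ FF, ∃ e, F.IsHomogeneous e) (hprime : (idealQ FF).IsPrime)
    (hnu : ¬ Unirational (idealQ FF)) (r B : ℕ) :
    ∃ G : MvPolynomial (Fin (n + 1)) ℚ, (∃ e, G.IsHomogeneous e) ∧ G ∉ idealQ FF ∧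
      ∀ b : ℕ, 2 ≤ b → ∀ x : Fin (n + 1) → ℤ, x ≠ 0 → SparseInt b r B x →
        (∀ F ∈ FF, eval x F = 0) → eval (fun i => (x i : ℚ)) G = 0 := by
  obtain ⟨G, h1, h2, h3⟩ := not_dense FF hhom hprime hnu r B
  refine ⟨G, h1, h2, fun b hb x hx0 hx h0 => ?_⟩
  obtain ⟨e, c, hc, hxe⟩ := hx
  exact h3 b hb e c hc x hx0 hxe h0

end Pool.Agent.Results.MP_2ae8fe_ag.SparseNotDense
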