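import Pool.Agent.H901R3.MS.AllPS

/-!
# All but `O(N ^ (3/4 + ε))` of the twists of a fixed even cyclic cover of a product of CM elliptic
curves have no rational point

`E_i : y² = x³ + a_i x` or `y² = x³ + b_i` (`i = 1, …, r`) are elliptic curves over `ℚ` of arbitrary
rank, `m` is even and `F` is a form with integer coefficients of multidegree `(d_1, …, d_r)`,
`m ∣ d_i`, in the homogeneous coordinates of the `r` plane cubics, which has no zero on
`E_1 × … × E_r` modulo `p` for all large primes `p ≡ -1 (mod M)`, for some `M`. Then the number of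
the integers `n`, `|n| ≤ N`, such that the twist `X_n : w ^ m = n F(P_1, …, P_r)`, `P_i ∈ E_i`, of
the cyclic cover `w ^ m = F` has a rational point is `O(N ^ (3/4 + ε))`.

Example (`twist_example` below), in every dimension `r`: the quadratic twists
`w² = n ∏ (y_i² + 1)`, `y_i² = x_i³ + a_i x_i`, of the double cover of `E_1 × … × E_r` branched along
the normal crossings divisor `∏ (y_i² + 1) = 0` (it has canonical singularities and is of general
type).

The proof applies the abstract sieve of helper925 (`Pool.Agent.H925R3.DC.ABS`, Mordell-Weil sieve at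
the primes `p` with smooth `p + 1`, Bombieri-Vinogradov, large sieve).
-/

namespace Pool.Agent.Results.MP_2ae8fe_ag.TwistsPowerSaving

open Pool.Agent.H901R3.MS

theorem result (r : ℕ) (a b : Fin r → ℤ)
    (hE : ∀ i, (b i = 0 ∧ a i ≠ 0) ∨ (a i = 0 ∧ b i ≠ 0))
    (m : ℕ) (hm : 2 ∣ m)
    (f : Expo r →₀ ℤ) (d : Fin r → ℕ) (hd : ∀ i, m ∣ d i) (hf : Homog f d)
    (M : ℕ) (hM : 1 ≤ M)
    (hF : ∃ p₁ : ℕ, ∀ (p : ℕ) (_ : Fact p.Prime), p₁ ≤ p → M ∣ p + 1 →
      ∀ P : (i : Fin r) → Pt (a i : ZMod p) (b i : ZMod p), ev f (fun i => rep (P i)) ≠ 0)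
    (ε : ℝ) (hε : 0 < ε) :
    ∃ C : ℝ, ∀ N : ℕ, 1 ≤ N →
      (({n : ℤ | |n| ≤ N ∧ ∃ (V : Fin r → Fin 3 → ℚ) (w : ℚ),
          (∀ i, OnE (a i) (b i) (V i)) ∧ w ^ m = n * ev f V}.ncard : ℕ) : ℝ) ≤
        C * (N : ℝ) ^ (3 / 4 + ε) := by
  obtain ⟨p₁, hp₁⟩ := hF
  refine twist_of mainPS r a b hE m hm f d hd hf (12 * M) p₁.factorial (by omega)
    (Nat.factorial_pos _) (dvd_mul_right 12 M) ?_ ε hε
  intro p hp h1 h2 P
  refine hp₁ p hp ?_ ((dvd_mul_left M 12).trans h2) P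
  by_contra h
  exact h1 (Nat.dvd_factorial hp.out.pos (by omega))

/-- An explicit example in every dimension. -/
theorem twist_example (r : ℕ) (a : Fin r → ℤ) (ha : ∀ i, a i ≠ 0) (ε : ℝ) (hε : 0 < ε) :
    ∃ C : ℝ, ∀ N : ℕ, 1 ≤ N →
      (({n : ℤ | |n| ≤ N ∧ ∃ (V : Fin r → Fin 3 → ℚ) (w : ℚ),
          (∀ i, OnE (a i) 0 (V i)) ∧ w ^ 2 = n * ∏ i, (V i 1 ^ 2 + V i 2 ^ 2)}.ncard : ℕ) : ℝ) ≤
        C * (N : ℝ) ^ (3 / 4 + ε) :=
  twist_exPS mainPS r a ha ε hε

end Pool.Agent.Results.MP_2ae8fe_ag.TwistsPowerSaving
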